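import Mathlib
import Pool.Agent.Lib.helper12.Jet2

namespace Pool.Agent.H.MP_027f17_mp

open Pool.Agent.Lib.helper12

variable {A : Type*} [CommRing A] [Algebra ℝ A] (J : Jet 3 A)

def Nn : Fin 3 → A := ![6 * J.x 0 1 * J.x 1 1, 3 * J.x 0 1 * J.x 0 1, 0]

def Cc : Fin 3 → A := ![0, 0, 3 * J.x 0 1 * J.x 0 1 * J.x 1 1]

def F (i : Fin 3) : A := J.x i 3 + Cc J i

lemma num (D : Derivation ℝ A A) (n : ℕ) [n.AtLeastTwo] : D ofNat(n) = 0 := D.map_natCast n

lemma eqn {ρ : A} (h : J.Im (J.E (F J) ρ)) (i : Fin 3) : J.E (F J) (J.var ρ i) =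
    J.T (J.T (J.T (J.var ρ i))) + J.T (J.var ρ 2 * Nn J i) := by
  rw [← sub_eq_zero]
  refine J.fund _ 0 fun l => ((J.cosym h (Pi.single i l)).add (Jet.Im.neg
    ⟨J.var ρ i * J.T (J.T l) - J.T (J.var ρ i) * J.T l + J.T (J.T (J.var ρ i)) * l +
      J.var ρ 2 * Nn J i * l, rfl⟩)).of_eq ?_
  fin_cases i <;> simp [F, Cc, Nn, Fin.sum_univ_three, num] <;> ring

lemma Tn_x (i : Fin 3) (m n : ℕ) : J.T^[n] (J.x i m) = J.x i (m + n) := by
  induction n with
  | zero => rfl
  | succ n ih => rw [Function.iterate_succ_apply', ih, Jet.T_x, add_assoc]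

lemma bd_C (l : Fin 3) : J.Bd 2 (Cc J l) := fun i n hn => by
  fin_cases l <;> simp [Cc, num, J.d_x, show n ≠ 1 by omega]

lemma bd_N (l : Fin 3) : J.Bd 2 (Nn J l) := fun i n hn => by
  fin_cases l <;> simp [Nn, num, J.d_x, show n ≠ 1 by omega]

lemma d_C (l j : Fin 3) : J.d j 1 (Cc J l) = if l = 2 then Nn J j else 0 := by
  fin_cases l <;> fin_cases j <;> simp [Cc, Nn, num, J.d_x] <;> ring

lemma d_F (j l : Fin 3) (q n : ℕ) : J.d j (q + 3) (J.T^[n] (F J l)) =
    (if l = j ∧ n = q then 1 else 0) + J.d j (q + 3) (J.T^[n] (Cc J l)) := by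
  rw [F, iterate_map_add, map_add, Tn_x, J.d_x]
  congr 2
  simp only [eq_comm (a := j), eq_iff_iff, and_congr_right_iff]
  omega

lemma dE {g : A} {q : ℕ} (hg : J.Bd (q + 3) g) (j : Fin 3) :
    J.d j (q + 1 + 3) (J.E (F J) g) = J.d j (q + 1) g ∧
    J.d j (q + 3) (J.E (F J) g) = J.d j q g + Nn J j * J.d 2 (q + 2) g := by
  constructor
  · rw [J.d_E, hg j _ (by omega), map_zero, zero_add, J.d_eq j (q + 1) g, J.vf_eq hg, J.vf_eq hg]
    refine Finset.sum_congr rfl fun n hn => Finset.sum_congr rfl fun l _ => ?_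
    have := Finset.mem_range.1 hn
    rw [d_F, (bd_C J l).Tn n j _ (by omega), add_zero]
  · rw [J.d_E, hg j _ (by omega), map_zero, zero_add, J.d_eq j q g, J.vf_eq hg, J.vf_eq hg]
    simp only [d_F, add_mul, Finset.sum_add_distrib]
    congr 1
    rw [Finset.sum_range_succ, Finset.sum_eq_zero, zero_add]
    · have := fun l => J.top (bd_C J l) j (q + 2)
      simp only [show 1 + (q + 2) = q + 3 by ring, d_C] at this
      simp only [this]
      simp
    intro n hn
    have := Finset.mem_range.1 hn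
    exact Finset.sum_eq_zero fun l _ => by rw [(bd_C J l).Tn n j _ (by omega), zero_mul]

lemma row {g : Fin 3 → A} {q : ℕ} (hg : ∀ i, J.Bd (q + 3) (g i))
    (e : ∀ i, J.E (F J) (g i) = J.T (J.T (J.T (g i))) + J.T (g 2 * Nn J i))
    (sy : ∀ i, J.d 2 (q + 2) (g i) = J.d i (q + 2) (g 2)) (i : Fin 3) : J.d 2 (q + 2) (g i) = 0 := by
  have b : ∀ i, J.Bd (q + 3) (g 2 * Nn J i) := fun i => (hg 2).mul ((bd_N J i).mono (by omega))
  have c : ∀ i l n, J.d l n (J.d 2 (q + 2) (g i)) = 0 := by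
    intro i l n
    have := congrArg (J.d 2 (q + 1 + 3)) (e i)
    rw [(dE J (hg i) 2).1, map_add, (b i).T 2 _ le_rfl] at this
    simp only [show q + 1 + 3 = q + 1 + 1 + 1 + 1 from rfl, Jet.d_T, map_add,
      hg i 2 (q + 1 + 1 + 1 + 1) (by omega), hg i 2 (q + 1 + 1 + 1) (by omega), map_zero] at this
    have z : J.T (J.d 2 (q + 2) (g i)) = 0 := by
      refine Jet.cancel 3 three_ne_zero ?_
      rw [Algebra.smul_def, map_ofNat]
      linear_combination -this
    exact J.bd_of_T (K := 0) (fun _ _ _ => by rw [z, map_zero]) l n (Nat.zero_le _)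
  have m : ∀ i j, J.Im (Nn J j * J.d 2 (q + 2) (g i) - Nn J i * J.d 2 (q + 2) (g j)) := by
    intro i j
    have := congrArg (J.d j (q + 3)) (e i)
    rw [(dE J (hg i) j).2, map_add, J.d_T j (q + 2) (g 2 * _), b i j _ le_rfl, Derivation.leibniz,
      bd_N J i j _ (by omega), ← sy] at this
    simp only [show q + 3 = q + 1 + 1 + 1 from rfl, Jet.d_T, map_add,
      hg i j (q + 1 + 1 + 1) (by omega), map_zero, smul_eq_mul] at this
    refine ⟨3 * J.T (J.d j (q + 1 + 1) (g i)) + 3 * J.d j (q + 1) (g i), ?_⟩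
    simp only [map_add, Derivation.leibniz, num, smul_eq_mul]
    linear_combination this
  have k : ∀ i j a b, J.d a 1 (J.d b 1
      (Nn J j * J.d 2 (q + 2) (g i) - Nn J i * J.d 2 (q + 2) (g j))) = 0 := fun i j =>
    (m i j).hess (K := 0) fun l n hn => by simp [c, bd_N J _ l n hn]
  have k0 := k 0 1 0 0
  have k1 := k 0 1 0 1
  have k2 := k 2 0 0 1
  simp [Nn, c, num, J.d_x] at k0 k1 k2
  refine Jet.cancel 6 (by norm_num) ?_
  rw [Algebra.smul_def, map_ofNat]
  match i with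
  | 0 => linear_combination k0
  | 1 => linear_combination k1
  | 2 => linear_combination k2

lemma main {ρ : A} {k : ℕ} (hk : 1 ≤ k) (b : J.Bd (k + 1) ρ) (h : J.Im (J.E (F J) ρ)) (j : Fin 3) :
    J.d 2 k (J.d j k ρ) = 0 := by
  obtain ⟨k, rfl⟩ := Nat.exists_eq_add_of_le' hk
  have e : k + 1 + (k + 1) = 2 * k + 2 := by ring
  have := row J (q := 2 * k) (fun i => (J.var_bd b i).mono (by omega)) (eqn J h)
    (fun i => by rw [← e, J.var_top b, J.var_top b, J.comm]) j
  rw [← e, J.var_top b] at this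
  rcases neg_one_pow_eq_or A (k + 1) with s | s <;> simpa [s] using this

end Pool.Agent.H.MP_027f17_mp
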